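import Pool.Agent.Work.MP_72ad00_an.Main

/-!
A set containing a translate of every two-dimensional plane in dimension `n` has modified lower
box dimension at least `n - 0.1518 (n - 2)`.
-/

set_option autoImplicit false

namespace Pool.Agent.Work.MP_72ad00_an.Old.BoxDim

open Pool.Agent.Work.MP_72ad00_an

theorem result (n : ℕ) (hn : 2 ≤ n) (E : Set (EuclideanSpace ℝ (Fin n)))
    (hE : ∀ V : Submodule ℝ (EuclideanSpace ℝ (Fin n)), Module.finrank ℝ V = 2 →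
      ∃ x : EuclideanSpace ℝ (Fin n), ∀ v ∈ V, x + v ∈ E)
    (F : ℕ → Set (EuclideanSpace ℝ (Fin n))) (hF : E ⊆ ⋃ i, F i) :
    ∃ (i : ℕ) (R C : ℝ), 0 < C ∧ ∀ δ : ℝ, 0 < δ → δ ≤ 1 →
      ∀ T : Finset (EuclideanSpace ℝ (Fin n)),
        F i ∩ Metric.closedBall 0 R ⊆ ⋃ t ∈ T, Metric.closedBall t δ →
          C * δ ^ (-((n : ℝ) - 0.1518 * ((n : ℝ) - 2))) ≤ (T.card : ℝ) := by
  obtain ⟨c, h0, h1, hp⟩ := best
  obtain ⟨i, R, C, hC, h⟩ := main hp h0 (h1.trans (by norm_num)) n hn E hE F hF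
  refine ⟨i, R, C, hC, fun δ hδ hδ1 T hT => le_trans ?_ (h δ hδ hδ1 T hT)⟩
  refine mul_le_mul_of_nonneg_left (Real.rpow_le_rpow_of_exponent_ge hδ hδ1 ?_) hC.le
  have h2 : (2 : ℝ) ≤ n := by exact_mod_cast hn
  nlinarith [mul_le_mul_of_nonneg_right h1 (sub_nonneg.2 h2)]

end Pool.Agent.Work.MP_72ad00_an.Old.BoxDim
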